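import Pool.Agent.MHP.Stmts

/-!
# SWP: the swap isomorphism of the gadgets (squad MHP, MP_09e7c7_co)
-/

set_option autoImplicit false

namespace Pool.Agent.MHP.H28

open Pool.Agent.HMT

section swp

variable {J : Type} [Finite J] (T B : ℕ) {GG GG' : Set (Equiv.Perm J)}

/-- the bijection of the permutations -/
def eg (σ : Equiv.Perm J) (h : ∀ g, σ * g ∈ GG' ↔ g ∈ GG) : GG ≃ GG' :=
  (Equiv.mulLeft σ).subtypeEquiv (fun g => (h g).symm)

omit [Finite J] in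
theorem eg_val (σ : Equiv.Perm J) (h : ∀ g, σ * g ∈ GG' ↔ g ∈ GG) (g : GG) :
    ((eg σ h g : GG') : Equiv.Perm J) = σ * g.1 := rfl

/-- the bijection of the labels -/
def ec (σ : Equiv.Perm J) (h : ∀ g, σ * g ∈ GG' ↔ g ∈ GG) : CX T GG ≃ CX T GG' :=
  Equiv.optionCongr ((eg σ h).prodCongr (Equiv.refl (KX J T)))

omit [Finite J] in
theorem ec_none (σ : Equiv.Perm J) (h : ∀ g, σ * g ∈ GG' ↔ g ∈ GG) :
    ec T σ h none = none := rfl

omit [Finite J] in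
theorem ec_some (σ : Equiv.Perm J) (h : ∀ g, σ * g ∈ GG' ↔ g ∈ GG) (g : GG) (k : KX J T) :
    ec T σ h (some (g, k)) = some (eg σ h g, k) := rfl

theorem lf_ec (σ : Equiv.Perm J) (h : ∀ g, σ * g ∈ GG' ↔ g ∈ GG) (c : CX T GG) :
    lf T B GG c = lf T B GG' (ec T σ h c) := by
  rcases c with _ | ⟨g, k⟩
  · rfl
  · rfl

/-- the bijection of the vertices -/
noncomputable def ev0 (σ : Equiv.Perm J) (h : ∀ g, σ * g ∈ GG' ↔ g ∈ GG) {U U' : Type} (η : U ≃ U') :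
    Ver T B GG U ≃ Ver T B GG' U' :=
  Equiv.sumCongr (Equiv.sigmaCongr (ec T σ h)
    (fun c => Equiv.optionCongr (finCongr (lf_ec T B σ h c)))) η

theorem ev0_none (σ : Equiv.Perm J) (h : ∀ g, σ * g ∈ GG' ↔ g ∈ GG) {U U' : Type} (η : U ≃ U')
    (c : CX T GG) : ev0 T B σ h η (.inl ⟨c, none⟩) = .inl ⟨ec T σ h c, none⟩ := rfl

theorem ev0_some (σ : Equiv.Perm J) (h : ∀ g, σ * g ∈ GG' ↔ g ∈ GG) {U U' : Type} (η : U ≃ U')
    (c : CX T GG) (t : Fin (lf T B GG c)) :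
    ev0 T B σ h η (.inl ⟨c, some t⟩) =
      .inl ⟨ec T σ h c, some (Fin.cast (lf_ec T B σ h c) t)⟩ := rfl

theorem ev0_inr (σ : Equiv.Perm J) (h : ∀ g, σ * g ∈ GG' ↔ g ∈ GG) {U U' : Type} (η : U ≃ U')
    (u : U) : ev0 T B σ h η (.inr u) = .inr (η u) := rfl

theorem rl_fwd (σ : Equiv.Perm J) (h : ∀ g, σ * g ∈ GG' ↔ g ∈ GG) {U U' : Type} (ρ : J → U)
    (ρ' : J → U') (H : SimpleGraph U) (H' : SimpleGraph U') (η : H ≃g H')
    (hη : ∀ i, η (ρ i) = ρ' (σ i)) (a b : Ver T B GG U) (hab : Rl T B GG ρ H a b) :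
    Rl T B GG' ρ' H' (ev0 T B σ h η.toEquiv a) (ev0 T B σ h η.toEquiv b) := by
  cases hab with
  | leaf c t =>
    rw [ev0_none, ev0_some]
    exact Rl.leaf _ _
  | spi g k k' hk =>
    rw [ev0_none, ev0_none, ec_some, ec_some]
    exact Rl.spi _ _ _ hk
  | leg g i =>
    rw [ev0_none, ec_some, ev0_inr]
    have e1 : η.toEquiv (ρ (g.1 i)) = ρ' ((eg σ h g).1 i) := hη (g.1 i)
    rw [e1]
    exact Rl.leg _ _
  | oh j =>
    rw [ev0_none, ec_none, ev0_inr]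
    have e1 : η.toEquiv (ρ j) = ρ' (σ j) := hη j
    rw [e1]
    exact Rl.oh _
  | pc u u' hu =>
    rw [ev0_inr, ev0_inr]
    exact Rl.pc _ _ (η.map_rel_iff.2 hu)

theorem rl_bwd (σ : Equiv.Perm J) (h : ∀ g, σ * g ∈ GG' ↔ g ∈ GG) {U U' : Type} (ρ : J → U)
    (ρ' : J → U') (H : SimpleGraph U) (H' : SimpleGraph U') (η : H ≃g H')
    (hη : ∀ i, η (ρ i) = ρ' (σ i)) (x y : Ver T B GG' U') (hxy : Rl T B GG' ρ' H' x y) :
    ∀ a b : Ver T B GG U, ev0 T B σ h η.toEquiv a = x → ev0 T B σ h η.toEquiv b = y →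
      Rl T B GG ρ H a b := by
  intro a b ha hb
  have inj := (ev0 T B σ h (U := U) η.toEquiv).injective
  cases hxy with
  | leaf c t =>
    obtain ⟨c, rfl⟩ := (ec T σ h).surjective c
    have h1 : a = .inl ⟨c, none⟩ := inj ha
    have h2 : b = .inl ⟨c, some (Fin.cast (lf_ec T B σ h c).symm t)⟩ := by
      apply inj
      rw [hb, ev0_some]
      rfl
    rw [h1, h2]
    exact Rl.leaf _ _
  | spi g k k' hk =>
    obtain ⟨g, rfl⟩ := (eg σ h).surjective g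
    have h1 : a = .inl ⟨some (g, k), none⟩ := inj ha
    have h2 : b = .inl ⟨some (g, k'), none⟩ := inj hb
    rw [h1, h2]
    exact Rl.spi _ _ _ hk
  | leg g i =>
    obtain ⟨g, rfl⟩ := (eg σ h).surjective g
    have h1 : a = .inl ⟨some (g, some (i, Fin.last T)), none⟩ := inj ha
    have h2 : b = .inr (ρ (g.1 i)) := by
      apply inj
      rw [hb, ev0_inr]
      have e1 : η.toEquiv (ρ (g.1 i)) = ρ' ((eg σ h g).1 i) := hη (g.1 i)
      rw [e1]
    rw [h1, h2]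
    exact Rl.leg _ _
  | oh j =>
    obtain ⟨j, rfl⟩ := σ.surjective j
    have h1 : a = .inl ⟨none, none⟩ := inj ha
    have h2 : b = .inr (ρ j) := by
      apply inj
      rw [hb, ev0_inr]
      have e1 : η.toEquiv (ρ j) = ρ' (σ j) := hη j
      rw [e1]
    rw [h1, h2]
    exact Rl.oh _
  | pc u u' hu =>
    obtain ⟨u, rfl⟩ := η.toEquiv.surjective u
    obtain ⟨u', rfl⟩ := η.toEquiv.surjective u'
    have h1 : a = .inr u := inj ha
    have h2 : b = .inr u' := inj hb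
    rw [h1, h2]
    exact Rl.pc _ _ (η.map_rel_iff.1 hu)

end swp

/-- **SWP**: the swap isomorphism. -/
theorem swp : SwpStmt := by
  intro J _ T B GG GG' σ U U' ρ ρ' H H' h η hη
  refine ⟨⟨ev0 T B σ h η.toEquiv, ?_⟩, rfl⟩
  intro a b
  have inj := (ev0 T B σ h (U := U) η.toEquiv).injective
  constructor
  · intro hab
    have hab' : ev0 T B σ h η.toEquiv a ≠ ev0 T B σ h η.toEquiv b ∧
      (Rl T B GG' ρ' H' (ev0 T B σ h η.toEquiv a) (ev0 T B σ h η.toEquiv b) ∨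
        Rl T B GG' ρ' H' (ev0 T B σ h η.toEquiv b) (ev0 T B σ h η.toEquiv a)) := hab
    refine (SimpleGraph.fromRel_adj _ _ _).2 ⟨fun e => hab'.1 (by rw [e]), ?_⟩
    rcases hab'.2 with h1 | h1
    · exact Or.inl (rl_bwd T B σ h ρ ρ' H H' η hη _ _ h1 a b rfl rfl)
    · exact Or.inr (rl_bwd T B σ h ρ ρ' H H' η hη _ _ h1 b a rfl rfl)
  · intro hab
    have hab' : a ≠ b ∧ (Rl T B GG ρ H a b ∨ Rl T B GG ρ H b a) := hab
    refine (SimpleGraph.fromRel_adj _ _ _).2 ⟨fun e => hab'.1 (inj e), ?_⟩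
    rcases hab'.2 with h1 | h1
    · exact Or.inl (rl_fwd T B σ h ρ ρ' H H' η hη a b h1)
    · exact Or.inr (rl_fwd T B σ h ρ ρ' H H' η hη b a h1)

end Pool.Agent.MHP.H28
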